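import Pool.Agent.helper74.VN.SpecA

/-!
# Project VN (MP_07c750_an), blocks 2b and 2c for the class `PotN`: rows `vn:X`

Rows `NXX` are the rows `VXX` of VQ (helper74/VQ/SpecC.lean, SpecE.lean) for the class `OKN Γ k B D`: COPY THE PROOF of `VXX` (`Pool/Agent/*/VQ/VXX.lean`; the argument is in the docstring of `VXX_stmt`) and change the constants: everywhere `∀ k > 0, ∃ C ..`. `VGR`, `VBO`, `VDM`, `VSH` of VQ are used as they are.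
`NHM`, `NHA`, `NHG` (the flow) are rows of block FL (helper80).
RULES: see `Defs.lean`. `import Pool.Agent.helper74.VN.SpecC`.
-/

open scoped MatrixGroups ContDiff Topology UpperHalfPlane ComplexConjugate ENNReal
open UpperHalfPlane MeasureTheory Filter Set

namespace Pool.Agent.VN

open Pool.Agent.RS Pool.Agent.VQ

noncomputable section

/-- the flow at fixed energy preserves the measure (block FL) -/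
def NHM_stmt : Prop := ∀ (Γ : Subgroup SL(2, ℝ)) (k : ℝ) (B : ℕ → ℝ) (D : Dyn), OKN Γ k B D → ∀ E t : ℝ, |E| ≤ k → MeasurePreserving (D.fl E t) mG mG

/-- additivity and equivariance (block FL) -/
def NHA_stmt : Prop := ∀ k : ℝ, 0 < k → ∃ C : ℝ, 1 ≤ C ∧ ∀ (Γ : Subgroup SL(2, ℝ)) (B : ℕ → ℝ) (D : Dyn), OKN Γ k B D → ∀ E s t : ℝ, |E| ≤ k → ∀ g : SL(2, ℝ), D.fl E (s + t) g = D.fl E s (D.fl E t g) ∧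
  (∀ γ : Γ, D.fl E t ((γ : SL(2, ℝ)) * g) = (γ : SL(2, ℝ)) * D.fl E t g) ∧ D.fl E t (-g) = -D.fl E t g ∧ dist (D.fl E t g • I : ℍ) (g • I) ≤ C * |t|

/-- Gronwall for two energies (block FL) -/
def NHG_stmt : Prop := ∀ k : ℝ, 0 < k → ∃ C : ℝ, 1 ≤ C ∧ ∀ (Γ : Subgroup SL(2, ℝ)) (B : ℕ → ℝ) (D : Dyn), OKN Γ k B D → ∀ (t s : ℝ) (p q : SL(2, ℝ) × ℝ), |p.2| ≤ k → |q.2| ≤ k → 0 < s → C * Real.exp (C * |t|) * s ≤ 1 → Nb s p q →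
  Nb (C * Real.exp (C * |t|) * s) (D.ph t p) (D.ph t q)

/-! ## Families -/

/-- **Row NNV** (copy of VNV; short; from VBO, VDM, NUB, NHM). The energies: `|2 E' - (ρ1² - U(h i))| ≤ C s`. -/
def NNV_stmt : Prop := ∀ k : ℝ, 0 < k → ∃ C : ℝ, 1 ≤ C ∧ ∀ (Γ : Subgroup SL(2, ℝ)) (B : ℕ → ℝ) (D : Dyn), OKN Γ k B D → ∀ (R : ℝ), 2 * R ^ (-(1 / 4) : ℝ) ≤ k → 1 ≤ R → ∀ (h : SL(2, ℝ)) (ρ1 t s : ℝ), 0 < s → s ≤ 1 / 4 → 0 ≤ ρ1 → ρ1 ≤ C →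
  mP {q | q ∈ GW 2 R ∧ h⁻¹ * D.fl q.2 t q.1 ∈ Bo s ∧ |ρ1 - rho D.U q.2 (D.fl q.2 t q.1)| < s} ≤ ENNReal.ofReal (C * s ^ 4) ∧
  (∀ E : ℝ, mP {q | q ∈ GW 2 R ∧ h⁻¹ * D.fl q.2 t q.1 ∈ Bo s ∧ |E - q.2| < s} ≤ ENNReal.ofReal (C * s ^ 4)) ∧
  mP {q | q ∈ GW 2 R ∧ dist (h • I : ℍ) (D.fl q.2 t q.1 • I) ≤ 2} ≤ ENNReal.ofReal C

/-- **Row NFS** (copy of VFS; short; from NOV, NNV, NUB). Take in NNV `C` at least as large as the upper bound of `ρ` in NUB. -/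
def NFS_stmt : Prop := ∀ k : ℝ, 0 < k → ∃ C : ℝ, 1 ≤ C ∧ ∀ η : ℝ, 0 < η → C * η ≤ 1 → ∃ (K : ℕ) (R0 : ℝ), 1 ≤ R0 ∧ ∀ (R m m' t t' : ℝ) (Γ : Subgroup SL(2, ℝ)) (B : ℕ → ℝ) (D : Dyn) (f f' : SL(2, ℝ) × ℝ → ℂ → ℂ), R0 ≤ R → OKN Γ k B D → 0 ≤ m → 0 ≤ m' → FaN Γ k D K η m R t f → FaN Γ k D K η m' R t' f' →
  (∀ p ∈ GW 2 R, ∫⁻ q in GW 2 R, ‖∫ z : ℍ, pF D t f p z * conj (pF D t' f' q z)‖ₑ ∂mP ≤ ENNReal.ofReal (m * m' * R ^ (-3 + C * η))) ∧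
  ∀ q ∈ GW 2 R, ∫⁻ p in GW 2 R, ‖∫ z : ℍ, pF D t f p z * conj (pF D t' f' q z)‖ₑ ∂mP ≤ ENNReal.ofReal (m * m' * R ^ (-3 + C * η))

/-- **Row NFR** (copy of VFR; short; from VDM, VBO, NUB, NHA). -/
def NFR_stmt : Prop := ∀ k : ℝ, 0 < k → ∃ C : ℝ, 1 ≤ C ∧ ∀ (Γ : Subgroup SL(2, ℝ)) (F : Set ℍ) (B : ℕ → ℝ) (D : Dyn) (K : ℕ) (η m R t : ℝ) (f : SL(2, ℝ) × ℝ → ℂ → ℂ), Dm Γ F → OKN Γ k B D → 0 < η → η ≤ 1 / 4 → 0 ≤ m → R ^ (-(1 / 2) + η) ≤ 1 / 4 → 2 * R ^ (-(1 / 4) : ℝ) ≤ k → 1 ≤ R → FaN Γ k D K η m R t f →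
  ContinuousOn (fun x : (SL(2, ℝ) × ℝ) × ℍ => pF D t f x.1 x.2) {x | |x.1.2| ≤ k} ∧ (∀ p ∈ GW 2 R, ∀ z, ‖pF D t f p z‖ ≤ m ∧ (pF D t f p z ≠ 0 → dist (D.fl p.2 t p.1 • I : ℍ) z ≤ 1 ∧ dist (p.1 • I : ℍ) z ≤ C * |t| + 1)) ∧
  (∀ (γ : Γ) (p : SL(2, ℝ) × ℝ) (z : ℍ), |p.2| ≤ k → pF D t f ((γ : SL(2, ℝ)) * p.1, p.2) (γ • z) = pF D t f p z) ∧
  (∀ v, FP Γ F v → FH Γ F (sF D R t f v)) ∧ (∀ φ, FH Γ F φ → FP Γ F (aF D R t f φ)) ∧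
  ∀ φ v, FH Γ F φ → FP Γ F v → ∫ p in PW F 2 R, aF D R t f φ p * conj (v p) ∂mP = ∫ z in F, φ z * conj (sF D R t f v z)

/-- **Row NFB** (copy of VFB; short; from NFS, NFR, VSH, VDM). -/
def NFB_stmt : Prop := ∀ k : ℝ, 0 < k → ∃ C : ℝ, 1 ≤ C ∧ ∀ η : ℝ, 0 < η → C * η ≤ 1 → ∃ (K : ℕ) (R0 : ℝ), 1 ≤ R0 ∧ ∀ (R m t : ℝ) (Γ : Subgroup SL(2, ℝ)) (F : Set ℍ) (B : ℕ → ℝ) (D : Dyn) (f : SL(2, ℝ) × ℝ → ℂ → ℂ), R0 ≤ R → Dm Γ F → OKN Γ k B D → 0 ≤ m → FaN Γ k D K η m R t f →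
  (∀ v, FP Γ F v → nn F (sF D R t f v) ≤ (m * R ^ (-(3 / 2) + C * η)) ^ 2 * nP F 2 R v) ∧
  ∀ φ, FH Γ F φ → nP F 2 R (aF D R t f φ) ≤ (m * R ^ (-(3 / 2) + C * η)) ^ 2 * nn F φ

/-- **Row NEN** (copy of VEN; short; from VGR). Only the continuity and the boundedness of `U` matter. -/
def NEN_stmt : Prop := ∀ (Γ : Subgroup SL(2, ℝ)) (F : Set ℍ) (U : ℍ → ℝ) (k R T ε b : ℝ) (w e : ℝ → ℍ → ℂ), Dm Γ F → 0 < k → PV Γ k U → 1 ≤ R → 0 ≤ T → 0 ≤ ε →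
  (∀ s ∈ Icc 0 T, FH Γ F (w s) ∧ QU.CD 2 (w s) ∧ FH Γ F (e s) ∧ nn F (e s) ≤ ε ^ 2) → (∀ s ∈ Icc 0 T, ∀ z ∈ F, (w s z ≠ 0 ∨ e s z ≠ 0) → dist z I ≤ b) →
  ContinuousOn (fun x : ℝ × ℍ => w x.1 x.2) (Icc 0 T ×ˢ univ) → ContinuousOn (fun x : ℝ × ℍ => QU.lap (w x.1) x.2) (Icc 0 T ×ˢ univ) → ContinuousOn (fun x : ℝ × ℍ => e x.1 x.2) (Icc 0 T ×ˢ univ) →
  (∀ s ∈ Icc 0 T, ∀ z, HasDerivAt (fun r => w r z) (-(Complex.I * Hop U R (w s) z) + e s z) s) →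
    Real.sqrt (nn F (w T)) ≤ Real.sqrt (nn F (w 0)) + T * ε

/-- **Row NFD** (copy of VFD; short-medium; from NPR, NRM, NFR, NPB, NHA). -/
def NFD_stmt : Prop := ∀ (ch : ℝ → ℝ) (ζ ζ1 R k : ℝ) (Γ : Subgroup SL(2, ℝ)) (F : Set ℍ) (B : ℕ → ℝ) (D : Dyn) (v : SL(2, ℝ) × ℝ → ℂ), CH ch → 0 < ζ → ζ ≤ ζ1 → ζ1 ≤ 1 / 8 → R ^ (-(1 / 2) + ζ1) ≤ 1 / 4 → 2 * R ^ (-(1 / 4) : ℝ) ≤ k → 2 ≤ R →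
  Dm Γ F → OKN Γ k B D → FP Γ F v → ∀ T : ℝ, 0 ≤ T → ∃ b : ℝ,
    (∀ s ∈ Icc 0 T, FH Γ F (fun z => ∫ q in GW 2 R, v q * psi D ch ζ ζ1 R s q z ∂mP) ∧ QU.CD 2 (fun z => ∫ q in GW 2 R, v q * psi D ch ζ ζ1 R s q z ∂mP) ∧ FH Γ F (sF D R s (fun q => Er D ch ζ ζ1 R s q) v)) ∧
    (∀ s ∈ Icc 0 T, ∀ z ∈ F, ((∫ q in GW 2 R, v q * psi D ch ζ ζ1 R s q z ∂mP) ≠ 0 ∨ sF D R s (fun q => Er D ch ζ ζ1 R s q) v z ≠ 0) → dist z I ≤ b) ∧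
    ContinuousOn (fun x : ℝ × ℍ => ∫ q in GW 2 R, v q * psi D ch ζ ζ1 R x.1 q x.2 ∂mP) (Icc 0 T ×ˢ univ) ∧
    ContinuousOn (fun x : ℝ × ℍ => QU.lap (fun z => ∫ q in GW 2 R, v q * psi D ch ζ ζ1 R x.1 q z ∂mP) x.2) (Icc 0 T ×ˢ univ) ∧
    ContinuousOn (fun x : ℝ × ℍ => sF D R x.1 (fun q => Er D ch ζ ζ1 R x.1 q) v x.2) (Icc 0 T ×ˢ univ) ∧
    ∀ s ∈ Icc 0 T, ∀ z, HasDerivAt (fun r => ∫ q in GW 2 R, v q * psi D ch ζ ζ1 R r q z ∂mP)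
      (-(Complex.I * Hop D.U R (fun z => ∫ q in GW 2 R, v q * psi D ch ζ ζ1 R s q z ∂mP) z) + -(Complex.I * sF D R s (fun q => Er D ch ζ ζ1 R s q) v z)) s

/-- **Row ND0** (copy of VD0; short; from NUB, NYB; VQ: VCT, VSY, VBR). -/
def ND0_stmt : Prop := ∀ k : ℝ, 0 < k → ∃ C : ℝ, 1 ≤ C ∧ ∀ (ch : ℝ → ℝ) (K : ℕ) (e ζ ζ1 ζ2 M : ℝ), CH ch → Rg C e ζ ζ1 → ζ1 ≤ ζ2 → C * ζ2 ≤ 1 → ∃ R0 : ℝ, 1 ≤ R0 ∧ ∀ (R : ℝ) (Γ : Subgroup SL(2, ℝ)) (B : ℕ → ℝ) (D : Dyn) (p : SL(2, ℝ) × ℝ) (t : ℝ),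
  R0 ≤ R → OKN Γ k B D → |p.2| ≤ k → |t| ≤ e * Real.log R →
    Pk K (C * ζ2) (R ^ (-M)) R (rho D.U p.2 p.1) (fun v => pv D ch ζ ζ2 R 0 p v - fG D ch ζ R p v) ∧
    Pk K (C * ζ2) (R ^ (-M)) R (rho D.U p.2 (D.fl p.2 t p.1)) (fun v => pv D ch ζ ζ2 R t p v - pv D ch ζ ζ1 R t p v)

/-- **Row NFM** (copy of VFM; short; from NPB, NPE, NPR, NUB). -/
def NFM_stmt : Prop := ∀ k : ℝ, 0 < k → ∃ C : ℝ, 1 ≤ C ∧ ∀ (ch : ℝ → ℝ) (K : ℕ) (e ζ ζ1 : ℝ) (B : ℕ → ℝ), CH ch → Rg C e ζ ζ1 → ∃ R0 : ℝ, 1 ≤ R0 ∧ ∀ (R t : ℝ) (Γ : Subgroup SL(2, ℝ)) (D : Dyn), R0 ≤ R → OKN Γ k B D → |t| ≤ e * Real.log R →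
  FaN Γ k D K (C * ζ1) (R ^ (3 / 2 + C * ζ1)) R t (pv D ch ζ ζ1 R t) ∧ FaN Γ k D K (C * ζ1) (R ^ (1 + C * ζ1)) R t (Er D ch ζ ζ1 R t) ∧ FaN Γ k D K (C * ζ1) (R ^ (3 / 2 + C * ζ1)) R 0 (fG D ch ζ R) ∧
  (∀ p z, pF D t (pv D ch ζ ζ1 R t) p z = psi D ch ζ ζ1 R t p z) ∧ ∀ p z, pF D 0 (fG D ch ζ R) p z = Gp D.U ch ζ R p z

/-- **Row NSA** (copy of VSA; short; from NEN, NFD, NFB, NFM, NFR, ND0, NQA, NUB, VDM). -/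
def NSA_stmt : Prop := ∀ k : ℝ, 0 < k → ∃ C : ℝ, 1 ≤ C ∧ ∀ (ch : ℝ → ℝ) (e ζ ζ1 : ℝ) (B : ℕ → ℝ), CH ch → Rg C e ζ ζ1 → ∃ R0 : ℝ, 1 ≤ R0 ∧ ∀ (R t : ℝ) (Γ : Subgroup SL(2, ℝ)) (F : Set ℍ) (D : Dyn), R0 ≤ R → Dm Γ F → OKN Γ k B D → 0 ≤ t → t ≤ e * Real.log R →
  (∀ v, FP Γ F v → nn F (sF D R t (pv D ch ζ ζ1 R t) v) ≤ (1 + R ^ (-(1 / 4) : ℝ)) ^ 2 * nP F 2 R v) ∧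
  ∀ φ, FH Γ F φ → nP F 2 R (aF D R t (pv D ch ζ ζ1 R t) φ) ≤ (1 + R ^ (-(1 / 4) : ℝ)) ^ 2 * nn F φ

/-! ## The small step -/

/-- **Row NUL** (copy of VUL; short; from NOV, NFM, NUB). -/
def NUL_stmt : Prop := ∀ k : ℝ, 0 < k → ∃ C : ℝ, 1 ≤ C ∧ ∀ (ch : ℝ → ℝ) (e ζ ζ1 M : ℝ) (B : ℕ → ℝ), CH ch → Rg C e ζ ζ1 → ∃ R0 : ℝ, 1 ≤ R0 ∧ ∀ (R t : ℝ) (Γ : Subgroup SL(2, ℝ)) (D : Dyn) (p q : SL(2, ℝ) × ℝ), R0 ≤ R → OKN Γ k B D → 0 ≤ t → t ≤ e * Real.log R → p ∈ GW 2 R → q ∈ GW 2 R →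
  ‖∫ z : ℍ, conj (psi D ch ζ ζ1 R t p z) * Gp D.U ch ζ R q z‖ ≤ R ^ (2 + C * ζ1) ∧ ((∫ z : ℍ, conj (psi D ch ζ ζ1 R t p z) * Gp D.U ch ζ R q z) ≠ 0 → dist (D.fl p.2 t p.1 • I : ℍ) (q.1 • I) ≤ 1) ∧
  (¬Nb (R ^ (-(1 / 2) + C * ζ1)) (D.ph t p) q → ‖∫ z : ℍ, conj (psi D ch ζ ζ1 R t p z) * Gp D.U ch ζ R q z‖ ≤ R ^ (-M)) ∧
  ‖∫ z : ℍ, conj (Gp D.U ch ζ R p z) * Gp D.U ch ζ R q z‖ ≤ R ^ (2 + C * ζ1) ∧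
  (¬Nb (R ^ (-(1 / 2) + C * ζ1)) p q → ‖∫ z : ℍ, conj (Gp D.U ch ζ R p z) * Gp D.U ch ζ R q z‖ ≤ R ^ (-M))

/-- **Row NUM** (copy of VUM; short-medium; from NPR, NQS, VBO, NUL, NHA, VDM, NUB). The range of `usm k`: `dW p q ≤ C (k σ) + 1/2`. -/
def NUM_stmt : Prop := ∀ k : ℝ, 0 < k → ∃ C : ℝ, 1 ≤ C ∧ ∀ (ch : ℝ → ℝ) (B : ℕ → ℝ) (A : Prm), CH ch → Adm C A → ∃ R0 : ℝ, 1 ≤ R0 ∧ ∀ (R : ℝ) (Γ : Subgroup SL(2, ℝ)) (F : Set ℍ) (D : Dyn), R0 ≤ R → Dm Γ F → OKN Γ k B D →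
  KZ Γ dW (us D ch A R) ∧ (∀ j, KZ Γ dW (usm D ch A R j)) ∧ (∀ j p q, usm D ch A R j p q ≠ 0 → RC D (A.sg R) (A.r R) (Wi 2 R) j p q ∧ dW p q ≤ C * (j * A.sg R) + 1 / 2) ∧
  (∀ p q, us D ch A R p q ≠ 0 → p ∈ GW 2 R ∧ q ∈ GW 2 R) ∧ (∀ j p q, usm D ch A R j p q ≠ 0 → p ∈ GW 2 R ∧ q ∈ GW 2 R) ∧
  (∀ (K : SL(2, ℝ) × ℝ → SL(2, ℝ) × ℝ → ℂ) (v : SL(2, ℝ) × ℝ → ℂ), KZ Γ dW K → (∀ p q, K p q ≠ 0 → p ∈ GW 2 R ∧ q ∈ GW 2 R) → FP Γ F v → FP Γ F (Op K v)) ∧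
  ∀ (j : ℕ) (v : SL(2, ℝ) × ℝ → ℂ) (p : SL(2, ℝ) × ℝ), FP Γ F v → Op (usm D ch A R (j + 1)) v p = Op (us D ch A R) (Op (usm D ch A R j) v) p

/-- **Row NUS** (copy of VUS; short; from NUL, NNV, VBO, NUB). -/
def NUS_stmt : Prop := ∀ k : ℝ, 0 < k → ∃ C : ℝ, 1 ≤ C ∧ ∀ (ch : ℝ → ℝ) (B : ℕ → ℝ) (A : Prm), CH ch → Adm C A → ∃ R0 : ℝ, 1 ≤ R0 ∧ ∀ (R : ℝ) (Γ : Subgroup SL(2, ℝ)) (D : Dyn), R0 ≤ R → OKN Γ k B D →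
  (∀ p, ∫⁻ q, ‖us D ch A R p q‖ₑ ∂mP ≤ ENNReal.ofReal (R ^ (C * A.z2))) ∧ (∀ q, ∫⁻ p, ‖us D ch A R p q‖ₑ ∂mP ≤ ENNReal.ofReal (R ^ (C * A.z2))) ∧
  (∀ p, ∫⁻ q, ‖pr D ch A R p q‖ₑ ∂mP ≤ ENNReal.ofReal (R ^ (C * A.z2))) ∧ ∀ q, ∫⁻ p, ‖pr D ch A R p q‖ₑ ∂mP ≤ ENNReal.ofReal (R ^ (C * A.z2))

/-- **Row NTS** (copy of VTS; short; from NUL, NSA, NQA, NUM, NNV, NFM, NFR, NQS, VSH, VDM). -/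
def NTS_stmt : Prop := ∀ k : ℝ, 0 < k → ∃ C : ℝ, 1 ≤ C ∧ ∀ (ch : ℝ → ℝ) (B : ℕ → ℝ) (A : Prm), CH ch → Adm C A → ∃ R0 : ℝ, 1 ≤ R0 ∧ ∀ (R : ℝ) (Γ : Subgroup SL(2, ℝ)) (F : Set ℍ) (D : Dyn) (v : SL(2, ℝ) × ℝ → ℂ), R0 ≤ R → Dm Γ F → OKN Γ k B D → FP Γ F v →
  nP F 2 R (fun p => Op (us D ch A R) v p - ∫ z : ℍ, Qs D.U ch A.z R v z * conj (psi D ch A.z A.z1 R (A.sg R) p z)) ≤ R ^ (-8 : ℝ) * nP F 2 R v ∧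
  nP F 2 R (fun p => Op (pr D ch A R) v p - QF D.U ch A.z R (Qs D.U ch A.z R v) p) ≤ R ^ (-8 : ℝ) * nP F 2 R v ∧
  nP F 2 R (Op (us D ch A R) v) ≤ (1 + R ^ (-(1 / 5) : ℝ)) ^ 2 * nP F 2 R v ∧ nP F 2 R (Op (pr D ch A R) v) ≤ (1 + R ^ (-(1 / 5) : ℝ)) ^ 2 * nP F 2 R v

/-- **Row NTN** (copy of VTN; short; from NTS, NUM, NHA). -/
def NTN_stmt : Prop := ∀ k : ℝ, 0 < k → ∃ C : ℝ, 1 ≤ C ∧ ∀ (ch : ℝ → ℝ) (B : ℕ → ℝ) (A : Prm), CH ch → Adm C A → ∃ R0 : ℝ, 1 ≤ R0 ∧ ∀ (R : ℝ) (Γ : Subgroup SL(2, ℝ)) (F : Set ℍ) (D : Dyn), R0 ≤ R → Dm Γ F → OKN Γ k B D →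
  (∀ (j : ℕ) (v : SL(2, ℝ) × ℝ → ℂ), j ≤ A.m → FP Γ F v → nP F 2 R (Op (usm D ch A R j) v) ≤ (1 + R ^ (-(1 / 6) : ℝ)) ^ 2 * nP F 2 R v) ∧
  ∀ (f : ℍ → ℝ) (t : ℝ), QU.Inv Γ f → Measurable (thP D f R t) ∧ (∀ (γ : Γ) (p : SL(2, ℝ) × ℝ), thP D f R t ((γ : SL(2, ℝ)) * p.1, p.2) = thP D f R t p) ∧
    KZ Γ dW (KB D ch A R f) ∧ ∀ v, FP Γ F v → nP F 2 R (Op (KB D ch A R f) v) ≤ (1 + R ^ (-(1 / 6) : ℝ)) ^ 2 * nP F 2 R v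

/-! ## Mass and density -/

/-- **Row NOX** (copy of VOX; short). -/
def NOX_stmt : Prop := (∀ (Γ : Subgroup SL(2, ℝ)) (k : ℝ) (B : ℕ → ℝ) (D : Dyn), OKN Γ k B D → OKN ⊥ k B D) ∧
  ∀ (D : Dyn) (ch : ℝ → ℝ) (ζ ζ1 R t k : ℝ) (Γ : Subgroup SL(2, ℝ)) (B : ℕ → ℝ) (p : SL(2, ℝ) × ℝ), CH ch → 0 < ζ1 → ζ1 ≤ 1 / 8 → 2 ≤ R → OKN Γ k B D → |p.2| ≤ k → R ^ (-(1 / 2) + ζ1) ≤ 1 / 4 →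
    FH ⊥ univ (psi D ch ζ ζ1 R t p) ∧ QU.CD 2 (psi D ch ζ ζ1 R t p)

/-- **Row NNP** (copy of VNP; short; from NYA, NYB; VQ: VBR, VCM, VCD, VCT). -/
def NNP_stmt : Prop := ∀ k : ℝ, 0 < k → ∃ C : ℝ, 1 ≤ C ∧ ∀ (ch : ℝ → ℝ) (e ζ ζ1 : ℝ) (B : ℕ → ℝ), CH ch → Rg C e ζ ζ1 → ∃ R0 : ℝ, 1 ≤ R0 ∧ ∀ (R t : ℝ) (Γ : Subgroup SL(2, ℝ)) (D : Dyn) (p : SL(2, ℝ) × ℝ), R0 ≤ R → OKN Γ k B D → |p.2| ≤ k → 0 ≤ t → t ≤ e * Real.log R →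
  nn univ (psi D ch ζ ζ1 R t p) ≤ (1 + R ^ (-(1 / 5) : ℝ)) * (R ^ 2 / (2 * Real.pi)) ∧ nn univ (Gp D.U ch ζ R p) ≤ R ^ 2 ∧ ∫ z : ℍ, ‖Gp D.U ch ζ R p z‖ ≤ 8 * R ^ (1 / 2 : ℝ) ∧
  (∀ z, ‖psi D ch ζ ζ1 R t p z‖ ≤ R ^ (3 / 2 : ℝ) * ‖D.a p.2 t p.1‖) ∧
  ∀ (K : ℕ) (η m ρ : ℝ) (f : ℂ → ℂ) (g : SL(2, ℝ)), 0 < η → η ≤ 1 / 8 → 0 ≤ m → R ^ (-(1 / 2) + η) ≤ 1 / 4 → Pk K η m R ρ f → nn univ (fun z => f (cd (g⁻¹ • z))) ≤ 8 * (m * R ^ (-(1 / 2) + η)) ^ 2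

/-- **Row NLE** (copy of VLE; short; from NPB, NUB, NNP; VLP). -/
def NLE_stmt : Prop := ∀ k : ℝ, 0 < k → ∃ C : ℝ, 1 ≤ C ∧ ∀ (ch : ℝ → ℝ) (e ζ ζ1 : ℝ) (B : ℕ → ℝ), CH ch → Rg C e ζ ζ1 → ∃ R0 : ℝ, 1 ≤ R0 ∧ ∀ (R t : ℝ) (Γ : Subgroup SL(2, ℝ)) (D : Dyn) (p : SL(2, ℝ) × ℝ), R0 ≤ R → OKN Γ k B D → |p.2| ≤ k → |t| ≤ e * Real.log R →
  nn univ (fun z => QU.lap (psi D ch ζ ζ1 R t p) z - ((R ^ 2 * (D.U z + 2 * p.2) : ℝ) : ℂ) * psi D ch ζ ζ1 R t p z) ≤ R ^ (5 + C * ζ1)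

/-- **Row NAW** (copy of VAW; short-medium; from NEN, NFD, NFB, NFM, NPE, ND0, NQA, NEL, NLE, NNP, NOX, NRM, NPR, NUB). -/
def NAW_stmt : Prop := ∀ k : ℝ, 0 < k → ∃ C : ℝ, 1 ≤ C ∧ ∀ (ch : ℝ → ℝ) (e ζ ζ2 : ℝ) (B : ℕ → ℝ), CH ch → Rg C e ζ ζ2 → ∃ R0 : ℝ, 1 ≤ R0 ∧ ∀ (R s t : ℝ) (Γ : Subgroup SL(2, ℝ)) (D : Dyn) (p : SL(2, ℝ) × ℝ), R0 ≤ R → OKN Γ k B D → p.2 ∈ Wi (31 / 16) R → 0 ≤ s → 0 ≤ t → s + t ≤ e * Real.log R →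
  nn univ (fun z => sF D R t (pv D ch ζ ζ2 R t) (QF D.U ch ζ R (psi D ch ζ ζ2 R s p)) z - psi D ch ζ ζ2 R (s + t) p z) ≤ R ^ (8 / 5 : ℝ)

/-- **Row NAD** (copy of VAD; short-medium; from NAW, NUL, NNP, ND0, NFM, NNV, NUS, NUM, NFR). -/
def NAD_stmt : Prop := ∀ k : ℝ, 0 < k → ∃ C : ℝ, 1 ≤ C ∧ ∀ (ch : ℝ → ℝ) (B : ℕ → ℝ) (A : Prm) (e ζ2 : ℝ), CH ch → Adm C A → Rg C e A.z ζ2 → A.z1 ≤ ζ2 → ∃ R0 : ℝ, 1 ≤ R0 ∧ ∀ (R t : ℝ) (Γ : Subgroup SL(2, ℝ)) (D : Dyn) (p q : SL(2, ℝ) × ℝ), R0 ≤ R → OKN Γ k B D → p.2 ∈ Wi (31 / 16) R → q ∈ GW 2 R → 0 ≤ t → A.sg R + t ≤ e * Real.log R →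
  ‖(∫ x, us D ch A R p x * (∫ z : ℍ, conj (psi D ch A.z ζ2 R t x z) * Gp D.U ch A.z R q z) ∂mP) - ∫ z : ℍ, conj (psi D ch A.z ζ2 R (A.sg R + t) p z) * Gp D.U ch A.z R q z‖ ≤ R ^ (15 / 8 : ℝ)

/-- **Row NAM** (copy of VAM; short-medium; from NAD, NUS, NUM, NUL, ND0, NNP). -/
def NAM_stmt : Prop := ∀ k : ℝ, 0 < k → ∃ C : ℝ, 1 ≤ C ∧ ∀ (ch : ℝ → ℝ) (B : ℕ → ℝ) (A : Prm), CH ch → Adm C A → ∃ ζ2 R0 : ℝ, A.z1 ≤ ζ2 ∧ 0 < ζ2 ∧ ζ2 ≤ 1 / 8 ∧ 1 ≤ R0 ∧ ∀ (R : ℝ) (Γ : Subgroup SL(2, ℝ)) (D : Dyn) (p q : SL(2, ℝ) × ℝ), R0 ≤ R → OKN Γ k B D → p.2 ∈ Wi (3 / 2) R → q ∈ GW 2 R →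
  ‖ub D ch A R p q - ∫ z : ℍ, conj (psi D ch A.z ζ2 R (A.tu R) p z) * Gp D.U ch A.z R q z‖ ≤ R ^ (19 / 10 : ℝ) ∧
  ‖∫ z : ℍ, conj (psi D ch A.z ζ2 R (A.tu R) p z) * Gp D.U ch A.z R q z‖ ≤ 8 * R ^ 2 * ‖D.a p.2 (A.tu R) p.1‖

/-- **Row NI9** (THE DENSITY OF THE BIG STEP; copy of VI9; short; from NAM, NYA, NYB, NUM). -/
def NI9_stmt : Prop := ∀ k : ℝ, 0 < k → ∃ C : ℝ, 1 ≤ C ∧ ∀ (ch : ℝ → ℝ) (B : ℕ → ℝ) (A : Prm), CH ch → Adm C A → ∃ R0 : ℝ, 1 ≤ R0 ∧ ∀ (R : ℝ) (Γ : Subgroup SL(2, ℝ)) (D : Dyn), R0 ≤ R → OKN Γ k B D →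
  ∀ p q : SL(2, ℝ) × ℝ, p.2 ∈ Wi (3 / 2) R → ‖ub D ch A R p q‖ ^ 2 * ‖(D.Y p.2 (A.tu R) p.1).det‖ ≤ R ^ (4 + C * A.z2)

/-- **Row NMA** (THE MASS OF THE ROWS; copy of VMA; short-medium; from NNP, NQA, NQS, NTN, NUM, NUS, NUL, NOX). -/
def NMA_stmt : Prop := ∀ k : ℝ, 0 < k → ∃ C : ℝ, 1 ≤ C ∧ ∀ (ch : ℝ → ℝ) (B : ℕ → ℝ) (A : Prm), CH ch → Adm C A → ∃ R0 : ℝ, 1 ≤ R0 ∧ ∀ (R : ℝ) (Γ : Subgroup SL(2, ℝ)) (D : Dyn), R0 ≤ R → OKN Γ k B D → ∀ (j : ℕ) (p : SL(2, ℝ) × ℝ), 1 ≤ j → j ≤ A.m →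
  ∫⁻ q, ‖usm D ch A R j p q‖ₑ ^ 2 ∂mP ≤ ENNReal.ofReal ((1 + R ^ (-(1 / 7) : ℝ)) * (R ^ 2 / (2 * Real.pi))) ∧ ∀ q, ‖usm D ch A R j p q‖ ≤ R ^ 3

end

end Pool.Agent.VN
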