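import Pool.Agent.helper74.VQ.SpecE

/-!
# MP_07c750 (quantum unique ergodicity), project VN: the class of potentials

VN = VQ for ALL negatively curved surfaces: QUE in full for almost every metric `e^(G + F) g` of negative curvature. Page: /team-store/VN.md.
The metric at the energy `E` is `(U + 2E) g`. Everything of VQ (namespace `Pool.Agent.VQ`: `Dyn`, `Gp`, `QF`, `psi`, `us`, `ub`, `KB`, `Wi`, `thP`, ..) is used without change; only the class of the potentials is different: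
`U` is bounded between `8 k` and `1/k`, with derivatives of order `≤ 3` bounded by `1/k`, and the curvature is at most `-k` for all energies `|E| ≤ k`.

RULES. Row `vn:XXX`: file `Pool/Agent/<seat>/VN/XXX.lean`, `set_option autoImplicit false`, namespace `Pool.Agent.VN`, auxiliary lemmas prefixed `XXX_`, theorem `XXX_proof (h..) : XXX_stmt` (rows listed in `from` may be used as hypotheses `(h : YYY_stmt)`; rows of VQ as `(h : VQ.YYY_stmt)`).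
No `convert`, `congr!`, `native_decide`, no double quotes, no `private`.
Most rows are COPIES of a row of VQ (same name with `V` in the place of the first letter `N`): copy the proof file, change the hypotheses and the constants (`δ ≤ 1/10`, `|E| ≤ 1/8`, `4/5 ≤ ρ ≤ 6/5` become `k`, `|E| ≤ k`, constants depending on `k`).
-/

open scoped MatrixGroups ContDiff Topology UpperHalfPlane ComplexConjugate
open UpperHalfPlane MeasureTheory Filter Set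

namespace Pool.Agent.VN

open Pool.Agent.RS Pool.Agent.VQ
open Pool.Agent.RPQ (CEig mean VV)

noncomputable section

/-- the Gauss curvature of the metric `(U + 2E) g` at `g • I` -/
def Kg (U : ℍ → ℝ) (E : ℝ) (g : SL(2, ℝ)) : ℝ :=
  -(1 + (hess U g 0 0 + hess U g 1 1) / (2 * rho U E g ^ 2) - (n1 U g ^ 2 + n2 U g ^ 2) / (2 * rho U E g ^ 4)) / rho U E g ^ 2

/-- potentials `U` of metrics `(U + 2E) g` of curvature at most `-k` for `|E| ≤ k` -/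
structure PotN (Γ : Subgroup SL(2, ℝ)) (k : ℝ) (B : ℕ → ℝ) (U : ℍ → ℝ) : Prop where
  kpos : 0 < k ∧ k ≤ 1 / 16
  smooth : QU.CD ∞ U
  inv : QU.Inv Γ U
  lo : ∀ z, 8 * k ≤ U z
  up : ∀ (g : SL(2, ℝ)) (v : ℂ), ‖v‖ ≤ 1 → ∀ n ≤ 3, ‖iteratedFDeriv ℝ n (Ug U g) v‖ ≤ 1 / k
  bd : ∀ (g : SL(2, ℝ)) (v : ℂ), ‖v‖ ≤ 1 → ∀ n, ‖iteratedFDeriv ℝ n (Ug U g) v‖ ≤ B n
  neg : ∀ (E : ℝ) (g : SL(2, ℝ)), |E| ≤ k → Kg U E g ≤ -k

/-- the differential equations (for `|E| ≤ k`); everything is trivial for the other `E` -/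
structure OKN (Γ : Subgroup SL(2, ℝ)) (k : ℝ) (B : ℕ → ℝ) (D : Dyn) : Prop where
  pot : PotN Γ k B D.U
  fl0 : ∀ E g, D.fl E 0 g = g
  out : ∀ E t g, k < |E| → D.fl E t g = g ∧ D.Y E t g = 1 ∧ D.P E t g = Complex.I • 1 ∧ D.S E t g = 0 ∧ D.a E t g = 1
  dfl : ∀ E t g, |E| ≤ k → ∀ i j, HasDerivAt (fun s => (D.fl E s g).1 i j) (((D.fl E t g).1 * XX D.U E (D.fl E t g)) i j) t
  cfl : ContinuousOn (fun p : ℝ × ℝ × SL(2, ℝ) => D.fl p.1 p.2.1 p.2.2) {p | |p.1| ≤ k}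
  Y0 : ∀ E g, D.Y E 0 g = 1
  P0 : ∀ E g, D.P E 0 g = Complex.I • 1
  S0 : ∀ E g, D.S E 0 g = 0
  a0 : ∀ E g, D.a E 0 g = 1
  dY : ∀ E t g, |E| ≤ k → ∀ i j, HasDerivAt (fun s => D.Y E s g i j)
    ((D.P E t g + ((kap D.U E (D.fl E t g) : ℝ) : ℂ) • (JJ * D.Y E t g)) i j) t
  dP : ∀ E t g, |E| ≤ k → ∀ i j, HasDerivAt (fun s => D.P E s g i j)
    ((KK D.U E (D.fl E t g) * D.Y E t g + ((kap D.U E (D.fl E t g) : ℝ) : ℂ) • (JJ * D.P E t g)) i j) t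
  dS : ∀ E t g, |E| ≤ k → HasDerivAt (fun s => D.S E s g) ((rho D.U E (D.fl E t g) ^ 2 + D.U (D.fl E t g • I)) / 2) t
  da : ∀ E t g, |E| ≤ k → HasDerivAt (fun s => D.a E s g) (-(1 / 2) * Matrix.trace (D.M E t g) * D.a E t g) t
  cY : ∀ i j, ContinuousOn (fun p : ℝ × ℝ × SL(2, ℝ) => D.Y p.1 p.2.1 p.2.2 i j) {p | |p.1| ≤ k}
  cP : ∀ i j, ContinuousOn (fun p : ℝ × ℝ × SL(2, ℝ) => D.P p.1 p.2.1 p.2.2 i j) {p | |p.1| ≤ k}
  cS : ContinuousOn (fun p : ℝ × ℝ × SL(2, ℝ) => D.S p.1 p.2.1 p.2.2) {p | |p.1| ≤ k}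
  ca : ContinuousOn (fun p : ℝ × ℝ × SL(2, ℝ) => D.a p.1 p.2.1 p.2.2) {p | |p.1| ≤ k}

/-- continuous invariant functions with values in `[k, 1/k]` -/
structure PV (Γ : Subgroup SL(2, ℝ)) (k : ℝ) (U : ℍ → ℝ) : Prop where
  inv : QU.Inv Γ U
  bd : ∀ z, k ≤ U z ∧ U z ≤ 1 / k

/-- families of packets at the time `t` -/
structure FaN (Γ : Subgroup SL(2, ℝ)) (k : ℝ) (D : Dyn) (K : ℕ) (η m R t : ℝ) (f : SL(2, ℝ) × ℝ → ℂ → ℂ) : Prop where
  cont : ContinuousOn (fun x : (SL(2, ℝ) × ℝ) × ℂ => f x.1 x.2) {x | |x.1.2| ≤ k}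
  inv : ∀ (γ : Γ) (p : SL(2, ℝ) × ℝ), f ((γ : SL(2, ℝ)) * p.1, p.2) = f p
  pk : ∀ p ∈ GW 2 R, Pk K η m R (rho D.U p.2 (D.fl p.2 t p.1)) (f p)

/-- the normal component of the variation `ω = [[x/2, b], [c, -x/2]]` at `g` -/
def Jc (U : ℍ → ℝ) (E : ℝ) (g : SL(2, ℝ)) (b c : ℝ) : ℝ := -(rho U E g * (b + c))

/-- its derivative with respect to the arc length -/
def Wc (U : ℍ → ℝ) (E : ℝ) (g : SL(2, ℝ)) (x b c : ℝ) : ℝ := (b - c) - n1 U g / (2 * rho U E g ^ 2) * (b + c) - kap U E g * x / rho U E g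

end

end Pool.Agent.VN
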