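import Pool.Agent.helper74.VN.Defs

/-!
# Project VN (MP_07c750_an), blocks 1 and 2a for the class `PotN`: rows `vn:X`

Rows `NXX` are the rows `VXX` of VQ (helper74/VQ/SpecA.lean, SpecB.lean) for the class `OKN Γ k B D`: COPY THE PROOF of the row `VXX` (file `Pool/Agent/*/VQ/VXX.lean`; see the docstring of `VXX_stmt` for the argument) and change the constants. The rows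
VCD, VCM, VLP, VDV, VPL, VPO, VBR, VQF, VDM, VSH, VSY, VCT, VTA, VNS, VGR, VBO of VQ are used as they are (hypotheses `(h : VQ.VCD_stmt)` ...).
RULES: see `Defs.lean`. `import Pool.Agent.helper74.VN.SpecA`.
-/

open scoped MatrixGroups ContDiff Topology UpperHalfPlane ComplexConjugate ENNReal
open UpperHalfPlane MeasureTheory Filter Set

namespace Pool.Agent.VN

open Pool.Agent.RS Pool.Agent.VQ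

noncomputable section

/-! ## Block 1 -/

/-- **Row NQS** (copy of VQS; short; from VQ: VBR, VCD, VDM). -/
def NQS_stmt : Prop := ∀ (ch : ℝ → ℝ) (ζ k : ℝ), CH ch → 0 < k → 0 < ζ → ζ ≤ 1 / 8 → ∃ R0 : ℝ, 1 ≤ R0 ∧ ∀ (R : ℝ) (Γ : Subgroup SL(2, ℝ)) (F : Set ℍ) (U : ℍ → ℝ), R0 ≤ R → Dm Γ F → PV Γ k U →
  Continuous (fun x : (SL(2, ℝ) × ℝ) × ℍ => Gp U ch ζ R x.1 x.2) ∧ (∀ p z, ‖Gp U ch ζ R p z‖ ≤ R ^ (3 / 2 : ℝ) ∧ (Gp U ch ζ R p z ≠ 0 → dist (p.1 • I : ℍ) z ≤ 2 * R ^ (-(1 / 2) + ζ))) ∧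
  (∀ (γ : Γ) (p : SL(2, ℝ) × ℝ) (z : ℍ), Gp U ch ζ R ((γ : SL(2, ℝ)) * p.1, p.2) (γ • z) = Gp U ch ζ R p z) ∧
  (∀ φ, FH Γ F φ → Continuous (QF U ch ζ R φ) ∧ FP Γ F (QF U ch ζ R φ)) ∧
  (∀ v, FP Γ F v → FH Γ F (Qs U ch ζ R v)) ∧
  ∀ φ v, FH Γ F φ → FP Γ F v → ∫ p in PW F 2 R, QF U ch ζ R φ p * conj (v p) ∂mP = ∫ z in F, φ z * conj (Qs U ch ζ R v z)

/-- **Row NIS** (copy of VIS; short; from VQ: VQF, VPL, VPO, VBR, VCM, VDM; NQS). -/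
def NIS_stmt : Prop := ∀ (ch : ℝ → ℝ) (ζ k : ℝ), CH ch → 0 < k → 0 < ζ → ζ ≤ 1 / 8 → ∃ R0 : ℝ, 1 ≤ R0 ∧ ∀ (R : ℝ) (Γ : Subgroup SL(2, ℝ)) (F : Set ℍ) (U : ℍ → ℝ) (φ : ℍ → ℂ), R0 ≤ R → Dm Γ F → PV Γ k U → FH Γ F φ →
  ∫⁻ g in dG F, (∫⁻ E in {E : ℝ | -(U (g • I) / 2) < E}, ‖QF U ch ζ R φ (g, E)‖ₑ ^ 2) ∂mG = ENNReal.ofReal (nn F φ)

/-- **Row NQA** (copy of VQA; short; from NIS, NQS). The window is part of `E > -U/2` because `2 R^(-1/4) < k/2` for `R ≥ R0`. -/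
def NQA_stmt : Prop := ∀ (ch : ℝ → ℝ) (ζ k : ℝ), CH ch → 0 < k → 0 < ζ → ζ ≤ 1 / 8 → ∃ R0 : ℝ, 1 ≤ R0 ∧ ∀ (R : ℝ) (Γ : Subgroup SL(2, ℝ)) (F : Set ℍ) (U : ℍ → ℝ), R0 ≤ R → Dm Γ F → PV Γ k U →
  (∀ φ, FH Γ F φ → nP F 2 R (QF U ch ζ R φ) ≤ nn F φ ∧
    nn F (fun z => Qs U ch ζ R (QF U ch ζ R φ) z - φ z) ≤ (∫⁻ g in dG F, (∫⁻ E in {E : ℝ | -(U (g • I) / 2) < E} \ Wi 2 R, ‖QF U ch ζ R φ (g, E)‖ₑ ^ 2) ∂mG).toReal) ∧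
  ∀ v, FP Γ F v → nn F (Qs U ch ζ R v) ≤ nP F 2 R v

/-- **Row NEG** (copy of VEG; short; from VQ: VQF, VPL, VPO, VLP, VBR, VCD). `|(U~ + 2 E0)(1-|v|²/4)^(-2) - U(g i) - 2 E0| ≤ C (L + 1/k) |v|`; the constants are absorbed by `R^ζ`. -/
def NEG_stmt : Prop := ∀ (ch : ℝ → ℝ) (ζ k L : ℝ), CH ch → 0 < k → k ≤ 1 / 16 → 0 < ζ → ζ ≤ 1 / 8 → ∃ R0 : ℝ, 1 ≤ R0 ∧ ∀ (R : ℝ) (U : ℍ → ℝ) (φ : ℍ → ℂ) (g : SL(2, ℝ)) (E0 : ℝ), R0 ≤ R → QU.CD 2 φ → Continuous U → (∀ z, k ≤ U z ∧ U z ≤ 1 / k) → (∀ v : ℂ, ‖v‖ ≤ 1 → |Ug U g v - Ug U g 0| ≤ L * ‖v‖) → |E0| ≤ k →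
  ∫⁻ θ in Ioc 0 (2 * Real.pi), ∫⁻ E in {E : ℝ | -(U (g • I) / 2) < E}, ENNReal.ofReal ((E - E0) ^ 2) * ‖QF U ch ζ R φ (g * kM θ, E)‖ₑ ^ 2 ≤
    ENNReal.ofReal (R ^ (1 + ζ) * ∫ v in Metric.closedBall (0 : ℂ) (R ^ (-(1 / 2) + ζ)), (R ^ (-4 : ℝ) * ‖QU.lap φ (g • cdi v) - ((R ^ 2 * (U (g • cdi v) + 2 * E0) : ℝ) : ℂ) * φ (g • cdi v)‖ ^ 2 +
      R ^ (-1 + 4 * ζ) * ‖φ (g • cdi v)‖ ^ 2 + R ^ (-3 + 4 * ζ) * (‖fderiv ℝ (fun w : ℂ => φ (g • cdi w)) v 1‖ ^ 2 + ‖fderiv ℝ (fun w : ℂ => φ (g • cdi w)) v Complex.I‖ ^ 2)))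

/-- **Row NGD** (copy of VGD; short; from VQ: VCM, VDM, VLP, VGR). `∫ |∇φ|² ≤ R² (1/k + 1) ∫ |φ|² + ..`. -/
def NGD_stmt : Prop := ∀ k : ℝ, 0 < k → k ≤ 1 / 16 → ∀ (Γ : Subgroup SL(2, ℝ)) (F : Set ℍ), Dm Γ F →
  (∀ (f : ℍ → ℂ) (s : ℝ), FH Γ F f → 0 < s → s ≤ 1 / 2 → ∫ g in dG F, (∫ v in Metric.closedBall (0 : ℂ) s, ‖f (g • cdi v)‖ ^ 2) ∂mG ≤ 4 * s ^ 2 * nn F f) ∧
  ∀ (φ : ℍ → ℂ) (U : ℍ → ℝ) (s R E0 : ℝ), FH Γ F φ → QU.CD 2 φ → PV Γ k U → 0 < s → s ≤ 1 / 2 → 1 ≤ R → |E0| ≤ k →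
    ∫ g in dG F, (∫ v in Metric.closedBall (0 : ℂ) s, (‖fderiv ℝ (fun w : ℂ => φ (g • cdi w)) v 1‖ ^ 2 + ‖fderiv ℝ (fun w : ℂ => φ (g • cdi w)) v Complex.I‖ ^ 2)) ∂mG ≤
      4 * s ^ 2 * (4 / k * R ^ 2 * nn F φ + (R ^ 2)⁻¹ * nn F (fun z => QU.lap φ z - ((R ^ 2 * (U z + 2 * E0) : ℝ) : ℂ) * φ z))

/-- **Row NEL** (copy of VEL; short; from NEG, NGD, NQS, RS.GMG). -/
def NEL_stmt : Prop := ∀ (ch : ℝ → ℝ) (ζ k L : ℝ), CH ch → 0 < k → k ≤ 1 / 16 → 0 < ζ → ζ ≤ 1 / 8 → ∃ R0 : ℝ, 1 ≤ R0 ∧ ∀ (R : ℝ) (Γ : Subgroup SL(2, ℝ)) (F : Set ℍ) (U : ℍ → ℝ) (φ : ℍ → ℂ) (E0 : ℝ), R0 ≤ R → Dm Γ F → PV Γ k U →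
  (∀ (g : SL(2, ℝ)) (v : ℂ), ‖v‖ ≤ 1 → |Ug U g v - Ug U g 0| ≤ L * ‖v‖) → |E0| ≤ k → FH Γ F φ → QU.CD 2 φ →
  ∫⁻ g in dG F, (∫⁻ E in {E : ℝ | -(U (g • I) / 2) < E}, ENNReal.ofReal ((E - E0) ^ 2) * ‖QF U ch ζ R φ (g, E)‖ₑ ^ 2) ∂mG ≤
    ENNReal.ofReal (R ^ (8 * ζ) * (R ^ (-4 : ℝ) * nn F (fun z => QU.lap φ z - ((R ^ 2 * (U z + 2 * E0) : ℝ) : ℂ) * φ z) + R ^ (-1 : ℝ) * nn F φ))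

/-! ## Block 2a: beams -/

/-- **Row NDN** (copy of VDN; short; only `rho ≠ 0` is needed). -/
def NDN_stmt : Prop := ∀ (Γ : Subgroup SL(2, ℝ)) (k : ℝ) (B : ℕ → ℝ) (U : ℍ → ℝ), PotN Γ k B U → ∀ (γ : ℝ → SL(2, ℝ)) (t x b c E : ℝ), |E| ≤ k →
  (∀ i j, HasDerivAt (fun s => (γ s).1 i j) (((γ t).1 * !![x / 2, b; c, -(x / 2)]) i j) t) →
  HasDerivAt (fun s => U (γ s • I)) (n1 U (γ t) * x - n2 U (γ t) * (b + c)) t ∧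
  HasDerivAt (fun s => n1 U (γ s)) (hess U (γ t) 0 0 * x - hess U (γ t) 0 1 * (b + c) + (b - c) * n2 U (γ t)) t ∧
  HasDerivAt (fun s => n2 U (γ s)) (hess U (γ t) 1 0 * x - hess U (γ t) 1 1 * (b + c) - (b - c) * n1 U (γ t)) t ∧
  HasDerivAt (fun s => rho U E (γ s)) ((n1 U (γ t) * x - n2 U (γ t) * (b + c)) / (2 * rho U E (γ t))) t ∧
  HasDerivAt (fun s => kap U E (γ s)) ((hess U (γ t) 1 0 * x - hess U (γ t) 1 1 * (b + c) - (b - c) * n1 U (γ t)) / (2 * rho U E (γ t)) -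
    kap U E (γ t) * ((n1 U (γ t) * x - n2 U (γ t) * (b + c)) / (2 * rho U E (γ t))) / rho U E (γ t)) t

/-- **Row NUB** (copy of VUB; short-medium). `6 k ≤ ρ² ≤ 2/k` (`8k ≤ U ≤ 1/k`, `|E| ≤ k ≤ 1/16`); Lipschitz bounds of the data: along a curve `γ' = γ ω` the derivatives of `U`, `n1`, `n2`, `rho`, `kap` are at most `C |ω|` (NDN); for `hess`: third derivatives. `C` depends on `k`. -/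
def NUB_stmt : Prop := ∀ k : ℝ, 0 < k → ∃ C : ℝ, 1 ≤ C ∧ ∀ (Γ : Subgroup SL(2, ℝ)) (B : ℕ → ℝ) (U : ℍ → ℝ), PotN Γ k B U →
  PV Γ k U ∧ (∀ g : SL(2, ℝ), |U (g • I)| ≤ C ∧ |n1 U g| ≤ C ∧ |n2 U g| ≤ C ∧ (∀ i j, |hess U g i j| ≤ C) ∧ hess U g 0 1 = hess U g 1 0) ∧
  (∀ (E : ℝ) (g : SL(2, ℝ)), |E| ≤ k → 1 / C ≤ rho U E g ∧ rho U E g ≤ C ∧ rho U E g ^ 2 = U (g • I) + 2 * E ∧ |kap U E g| ≤ C ∧ kap U E g * rho U E g = n2 U g / 2 ∧ |Kg U E g| ≤ C) ∧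
  (Continuous (n1 U) ∧ Continuous (n2 U) ∧ (∀ i j, Continuous fun g => hess U g i j) ∧ Continuous (fun p : ℝ × SL(2, ℝ) => rho U p.1 p.2) ∧
    ContinuousOn (fun p : ℝ × SL(2, ℝ) => kap U p.1 p.2) {p | |p.1| ≤ k}) ∧
  (∀ (γ : Γ) (g : SL(2, ℝ)) (E : ℝ), Ug U ((γ : SL(2, ℝ)) * g) = Ug U g ∧ n1 U ((γ : SL(2, ℝ)) * g) = n1 U g ∧ n2 U ((γ : SL(2, ℝ)) * g) = n2 U g ∧ hess U ((γ : SL(2, ℝ)) * g) = hess U g ∧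
    rho U E ((γ : SL(2, ℝ)) * g) = rho U E g ∧ kap U E ((γ : SL(2, ℝ)) * g) = kap U E g) ∧
  (∀ (g : SL(2, ℝ)) (v : ℂ), ‖v‖ ≤ 1 → ContDiffAt ℝ ∞ (Ug U g) v ∧ |Ug U g v - Ug U g 0| ≤ C * ‖v‖) ∧
  ∀ (g : SL(2, ℝ)) (v : ℂ), ‖v‖ ≤ 1 → |Ug U g v - (U (g • I) + n1 U g * v.re + n2 U g * v.im +
    (hess U g 0 0 * v.re ^ 2 + 2 * hess U g 0 1 * v.re * v.im + hess U g 1 1 * v.im ^ 2) / 2)| ≤ C * ‖v‖ ^ 3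

/-- **Row NYA** (copy of VYA; short). -/
def NYA_stmt : Prop := ∀ (Γ : Subgroup SL(2, ℝ)) (k : ℝ) (B : ℕ → ℝ) (D : Dyn), OKN Γ k B D → ∀ (E t : ℝ) (g : SL(2, ℝ)), |E| ≤ k →
  (D.Y E t g).det ≠ 0 ∧ (D.Y E t g).transpose * D.P E t g = (D.P E t g).transpose * D.Y E t g ∧
  (D.Y E t g).conjTranspose * D.P E t g - (D.P E t g).conjTranspose * D.Y E t g = (2 * Complex.I) • (1 : Matrix (Fin 2) (Fin 2) ℂ) ∧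
  D.M E t g 0 1 = D.M E t g 1 0 ∧ D.a E t g ^ 2 * (D.Y E t g).det = 1 ∧ (∀ i j, ((D.Y E t g * (D.Y E t g).conjTranspose) i j).im = 0) ∧
  ∀ v : ℂ, (qf (D.M E t g) v).im = ‖((D.Y E t g)⁻¹.mulVec ![(v.re : ℂ), (v.im : ℂ)]) 0‖ ^ 2 + ‖((D.Y E t g)⁻¹.mulVec ![(v.re : ℂ), (v.im : ℂ)]) 1‖ ^ 2

/-- **Row NYB** (copy of VYB; short; from NYA, NUB). -/
def NYB_stmt : Prop := ∀ k : ℝ, 0 < k → ∃ C : ℝ, 1 ≤ C ∧ ∀ (Γ : Subgroup SL(2, ℝ)) (B : ℕ → ℝ) (D : Dyn), OKN Γ k B D → ∀ (E t : ℝ) (g : SL(2, ℝ)), |E| ≤ k →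
  (∀ i j, ‖D.Y E t g i j‖ ≤ C * Real.exp (C * |t|) ∧ ‖D.P E t g i j‖ ≤ C * Real.exp (C * |t|) ∧ ‖(D.Y E t g)⁻¹ i j‖ ≤ C * Real.exp (C * |t|) ∧ ‖D.M E t g i j‖ ≤ C * Real.exp (C * |t|)) ∧
  ‖D.a E t g‖ ≤ C * Real.exp (C * |t|) ∧ (∀ v : ℂ, ‖v‖ ^ 2 ≤ C * Real.exp (C * |t|) * (qf (D.M E t g) v).im) ∧ |D.S E t g| ≤ C * |t|

/-- **Row NYC** (copy of VYC; short; from NYA). -/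
def NYC_stmt : Prop := ∀ (Γ : Subgroup SL(2, ℝ)) (k : ℝ) (B : ℕ → ℝ) (D : Dyn), OKN Γ k B D → ∀ (E : ℝ) (g : SL(2, ℝ)) (y1 π1 y2 π2 : ℝ → Fin 2 → ℝ), |E| ≤ k → Sol D E g y1 π1 → Sol D E g y2 π2 → ∀ t : ℝ,
  |y1 t 0 * y2 t 1 - y1 t 1 * y2 t 0| ≤ ‖(D.Y E t g).det‖ * (Real.sqrt (y1 0 0 ^ 2 + y1 0 1 ^ 2 + π1 0 0 ^ 2 + π1 0 1 ^ 2) * Real.sqrt (y2 0 0 ^ 2 + y2 0 1 ^ 2 + π2 0 0 ^ 2 + π2 0 1 ^ 2))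

/-- **Row NYV** (copy of VYV; short; from NDN, NUB). -/
def NYV_stmt : Prop := ∀ (Γ : Subgroup SL(2, ℝ)) (k : ℝ) (B : ℕ → ℝ) (D : Dyn), OKN Γ k B D → ∀ (E : ℝ) (g : SL(2, ℝ)), |E| ≤ k →
  (∀ x b c : ℝ → ℝ, VSol D E g x b c → Sol D E g (fun t => ![x t, -(b t + c t)])
    (fun t => ![(n1 D.U (D.fl E t g) * x t - n2 D.U (D.fl E t g) * (b t + c t)) / (2 * rho D.U E (D.fl E t g)), rho D.U E (D.fl E t g) * (b t - c t)])) ∧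
  VSol D E g (fun t => rho D.U E (D.fl E t g)) (fun t => kap D.U E (D.fl E t g) / 2) (fun t => -(kap D.U E (D.fl E t g) / 2))

/-- **Row NYU** (copy of VYU; short; from NYC, NYV, NUB). -/
def NYU_stmt : Prop := ∀ k : ℝ, 0 < k → ∃ C : ℝ, 1 ≤ C ∧ ∀ (Γ : Subgroup SL(2, ℝ)) (B : ℕ → ℝ) (D : Dyn), OKN Γ k B D → ∀ (E : ℝ) (g : SL(2, ℝ)) (x b c : ℝ → ℝ), |E| ≤ k → VSol D E g x b c → |x 0| ≤ 1 → |b 0| ≤ 1 → |c 0| ≤ 1 →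
  ∀ t : ℝ, |b t + c t| ≤ C * ‖(D.Y E t g).det‖

/-- **Row NJW** (THE JACOBI EQUATION; short-medium; from NDN, NUB). For a solution of the variational equation `J = -ρ (b + c)`, `W = (b - c) - n1/(2ρ²) (b + c) - κ x/ρ` satisfy `J' = ρ² W`, `W' = -ρ² Kg J`: a computation with `ρ' = n1/2`, `n1' = hess₀₀ ρ + κ n2`, `n2' = hess₁₀ ρ - κ n1` along the flow (NDN with `x = ρ`, `b = -c = κ/2`), `κ = n2/(2ρ)`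
(checked numerically). -/
def NJW_stmt : Prop := ∀ (Γ : Subgroup SL(2, ℝ)) (k : ℝ) (B : ℕ → ℝ) (D : Dyn), OKN Γ k B D → ∀ (E : ℝ) (g : SL(2, ℝ)) (x b c : ℝ → ℝ), |E| ≤ k → VSol D E g x b c → ∀ t : ℝ,
  HasDerivAt (fun s => Jc D.U E (D.fl E s g) (b s) (c s)) (rho D.U E (D.fl E t g) ^ 2 * Wc D.U E (D.fl E t g) (x t) (b t) (c t)) t ∧
  HasDerivAt (fun s => Wc D.U E (D.fl E s g) (x s) (b s) (c s)) (-(rho D.U E (D.fl E t g) ^ 2 * Kg D.U E (D.fl E t g) * Jc D.U E (D.fl E t g) (b t) (c t))) t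

/-- **Row NPB** (copy of VPB; short; from NYB, NUB; VQ: VSY, VCT, VBR). -/
def NPB_stmt : Prop := ∀ k : ℝ, 0 < k → ∃ C : ℝ, 1 ≤ C ∧ ∀ (ch : ℝ → ℝ) (K : ℕ) (e ζ ζ1 : ℝ), CH ch → Rg C e ζ ζ1 → ∃ R0 : ℝ, 1 ≤ R0 ∧ ∀ (R : ℝ) (Γ : Subgroup SL(2, ℝ)) (B : ℕ → ℝ) (D : Dyn) (p : SL(2, ℝ) × ℝ) (t : ℝ),
  R0 ≤ R → OKN Γ k B D → |p.2| ≤ k → |t| ≤ e * Real.log R →
    (Pk K (C * ζ1) (R ^ (3 / 2 + C * ζ1)) R (rho D.U p.2 p.1) fun v => (((cR ch ζ R * b0 ch ζ R v : ℝ)) : ℂ) * Complex.exp (((R * rho D.U p.2 p.1 * v.re : ℝ) : ℂ) * Complex.I)) ∧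
    Pk K (C * ζ1) (R ^ (3 / 2 + C * ζ1)) R (rho D.U p.2 (D.fl p.2 t p.1)) (pv D ch ζ ζ1 R t p)

/-- **Row NRM** (copy of VRM; short; from NYA, NDN, NUB; VQ: VLP, VDV). -/
def NRM_stmt : Prop := ∀ (ch : ℝ → ℝ) (ζ ζ1 R k : ℝ) (Γ : Subgroup SL(2, ℝ)) (B : ℕ → ℝ) (D : Dyn) (p : SL(2, ℝ) × ℝ) (t : ℝ), CH ch → 0 < ζ1 → ζ1 ≤ 1 / 8 → 2 ≤ R → OKN Γ k B D → |p.2| ≤ k →
  (∀ v : ℂ, Er D ch ζ ζ1 R t p v = (cR ch ζ R : ℂ) * D.a p.2 t p.1 *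
      Complex.exp (Complex.I * (R : ℂ) * (((D.S p.2 t p.1 + rho D.U p.2 (D.fl p.2 t p.1) * v.re : ℝ) : ℂ) + qf (D.M p.2 t p.1) v / 2)) *
      (((ch (R ^ (1 - 2 * ζ1) * ‖v‖ ^ 2) : ℝ) : ℂ) * ((R : ℂ) * r3 D t p v + Complex.I / 2 * (D.M p.2 t p.1 0 0 + D.M p.2 t p.1 1 1) * (((1 - ‖v‖ ^ 2 / 4) ^ 2 - 1 : ℝ) : ℂ)) -
        Complex.I * fderiv ℝ (fun w : ℂ => ((ch (R ^ (1 - 2 * ζ1) * ‖w‖ ^ 2) : ℝ) : ℂ)) v (XV (rho D.U p.2 (D.fl p.2 t p.1)) (kap D.U p.2 (D.fl p.2 t p.1)) v) +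
        (((1 - ‖v‖ ^ 2 / 4) ^ 2 : ℝ) : ℂ) * (lp2 (fun w : ℂ => ((ch (R ^ (1 - 2 * ζ1) * ‖w‖ ^ 2) : ℝ) : ℂ)) v / (2 * (R : ℂ)) +
          Complex.I * (fderiv ℝ (fun w : ℂ => ((ch (R ^ (1 - 2 * ζ1) * ‖w‖ ^ 2) : ℝ) : ℂ)) v 1 * ((rho D.U p.2 (D.fl p.2 t p.1) : ℂ) + D.M p.2 t p.1 0 0 * (v.re : ℂ) + D.M p.2 t p.1 0 1 * (v.im : ℂ)) +
            fderiv ℝ (fun w : ℂ => ((ch (R ^ (1 - 2 * ζ1) * ‖w‖ ^ 2) : ℝ) : ℂ)) v Complex.I * (D.M p.2 t p.1 1 0 * (v.re : ℂ) + D.M p.2 t p.1 1 1 * (v.im : ℂ)))))) ∧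
  ∀ z : ℍ, QU.CD 2 (psi D ch ζ ζ1 R t p) ∧
    HasDerivAt (fun s => psi D ch ζ ζ1 R s p z) (-(Complex.I * Hop D.U R (psi D ch ζ ζ1 R t p) z) - Complex.I * Er D ch ζ ζ1 R t p (cd ((D.fl p.2 t p.1)⁻¹ • z))) t

/-- **Row NR3** (copy of VR3; short; from NUB, NYB). `C` depends on `k`, `C'` on `k, K, B`. -/
def NR3_stmt : Prop := ∀ k : ℝ, 0 < k → ∃ C : ℝ, 1 ≤ C ∧ ∀ (K : ℕ) (B : ℕ → ℝ), ∃ C' : ℝ, 1 ≤ C' ∧ ∀ (Γ : Subgroup SL(2, ℝ)) (D : Dyn) (p : SL(2, ℝ) × ℝ) (t : ℝ), OKN Γ k B D → |p.2| ≤ k → ∀ v : ℂ, ‖v‖ ≤ 1 →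
  ContDiffAt ℝ ∞ (r3 D t p) v ∧ (∀ k' ≤ 3, ‖iteratedFDeriv ℝ k' (r3 D t p) v‖ ≤ C' * Real.exp (C * |t|) * ‖v‖ ^ (3 - k')) ∧ ∀ k' ≤ K, ‖iteratedFDeriv ℝ k' (r3 D t p) v‖ ≤ C' * Real.exp (C * |t|)

/-- **Row NPE** (copy of VPE; short; from NRM, NR3, NYB, NPB; VQ: VSY, VCT). -/
def NPE_stmt : Prop := ∀ k : ℝ, 0 < k → ∃ C : ℝ, 1 ≤ C ∧ ∀ (ch : ℝ → ℝ) (K : ℕ) (e ζ ζ1 : ℝ) (B : ℕ → ℝ), CH ch → Rg C e ζ ζ1 → ∃ R0 : ℝ, 1 ≤ R0 ∧ ∀ (R : ℝ) (Γ : Subgroup SL(2, ℝ)) (D : Dyn) (p : SL(2, ℝ) × ℝ) (t : ℝ),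
  R0 ≤ R → OKN Γ k B D → |p.2| ≤ k → |t| ≤ e * Real.log R → Pk K (C * ζ1) (R ^ (1 + C * ζ1)) R (rho D.U p.2 (D.fl p.2 t p.1)) (Er D ch ζ ζ1 R t p)

/-- **Row NPR** (copy of VPR; short; from NRM, NUB, NYA). -/
def NPR_stmt : Prop := ∀ (ch : ℝ → ℝ) (ζ ζ1 R k : ℝ) (Γ : Subgroup SL(2, ℝ)) (B : ℕ → ℝ) (D : Dyn), CH ch → 0 < ζ1 → ζ1 ≤ 1 / 8 → 2 ≤ R → OKN Γ k B D →
  ContinuousOn (fun x : ((SL(2, ℝ) × ℝ) × ℝ) × ℍ => psi D ch ζ ζ1 R x.1.2 x.1.1 x.2) {x | |x.1.1.2| ≤ k} ∧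
  ContinuousOn (fun x : ((SL(2, ℝ) × ℝ) × ℝ) × ℍ => QU.lap (psi D ch ζ ζ1 R x.1.2 x.1.1) x.2) {x | |x.1.1.2| ≤ k} ∧
  ContinuousOn (fun x : ((SL(2, ℝ) × ℝ) × ℝ) × ℍ => fderiv ℝ (QU.onC (psi D ch ζ ζ1 R x.1.2 x.1.1)) (x.2 : ℂ)) {x | |x.1.1.2| ≤ k} ∧
  ContinuousOn (fun x : ((SL(2, ℝ) × ℝ) × ℝ) × ℍ => fderiv ℝ (fderiv ℝ (QU.onC (psi D ch ζ ζ1 R x.1.2 x.1.1))) (x.2 : ℂ)) {x | |x.1.1.2| ≤ k} ∧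
  ContinuousOn (fun x : ((SL(2, ℝ) × ℝ) × ℝ) × ℂ => pv D ch ζ ζ1 R x.1.2 x.1.1 x.2) {x | |x.1.1.2| ≤ k} ∧
  ContinuousOn (fun x : ((SL(2, ℝ) × ℝ) × ℝ) × ℂ => Er D ch ζ ζ1 R x.1.2 x.1.1 x.2) {x | |x.1.1.2| ≤ k} ∧
  ∀ (γ : Γ) (p : SL(2, ℝ) × ℝ) (t : ℝ), D.fl p.2 t ((γ : SL(2, ℝ)) * p.1) = (γ : SL(2, ℝ)) * D.fl p.2 t p.1 ∧
    pv D ch ζ ζ1 R t ((γ : SL(2, ℝ)) * p.1, p.2) = pv D ch ζ ζ1 R t p ∧ Er D ch ζ ζ1 R t ((γ : SL(2, ℝ)) * p.1, p.2) = Er D ch ζ ζ1 R t p ∧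
    ∀ z : ℍ, psi D ch ζ ζ1 R t ((γ : SL(2, ℝ)) * p.1, p.2) (γ • z) = psi D ch ζ ζ1 R t p z

/-- **Row NOV** (copy of VOV for `ρ` in `[1/c, c]`; short-medium; from VQ: VTA, VNS, VSY, VCM, VCD). `C` absolute, `R0` depends on `c`: `|ρ1 - ρ2 e^(iα)| < s` implies `|ρ1 - ρ2| ≤ s`, `|e^(iα) - 1| ≤ 2 c s`; constants depending on `c` are absorbed by `R^η`. -/
def NOV_stmt : Prop := ∃ C : ℝ, 1 ≤ C ∧ ∀ M η c : ℝ, 1 ≤ c → 0 < η → C * η ≤ 1 → ∃ (K : ℕ) (R0 : ℝ), 1 ≤ R0 ∧ ∀ (R ρ1 ρ2 m1 m2 : ℝ) (f1 f2 : ℂ → ℂ) (g1 g2 : SL(2, ℝ)), R0 ≤ R → ρ1 ∈ Icc (1 / c) c → ρ2 ∈ Icc (1 / c) c → 0 ≤ m1 → 0 ≤ m2 →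
  Pk K η m1 R ρ1 f1 → Pk K η m2 R ρ2 f2 →
    ‖∫ z : ℍ, f1 (cd (g1⁻¹ • z)) * conj (f2 (cd (g2⁻¹ • z)))‖ ≤ m1 * m2 * R ^ (-1 + 3 * η) ∧
    ((∫ z : ℍ, f1 (cd (g1⁻¹ • z)) * conj (f2 (cd (g2⁻¹ • z)))) ≠ 0 → dist (g1 • I : ℍ) (g2 • I) ≤ 1) ∧
    (¬(g1⁻¹ * g2 ∈ Bo (R ^ (-(1 / 2) + C * η)) ∧ |ρ1 - ρ2| < R ^ (-(1 / 2) + C * η)) → ‖∫ z : ℍ, f1 (cd (g1⁻¹ • z)) * conj (f2 (cd (g2⁻¹ • z)))‖ ≤ m1 * m2 * R ^ (-M))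

end

end Pool.Agent.VN
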