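import Pool.Agent.helper74.VN.SpecC
import Pool.Agent.helper11.VN.Spec3i

/-!
# Project VN (MP_07c750_an), the interfaces I2N and I4N of blocks 1 and 2: rows `vn:NI2`, `vn:NI4`

RULES: see `Defs.lean`. `import Pool.Agent.helper74.VN.SpecN`.
-/

open scoped MatrixGroups ContDiff Topology UpperHalfPlane ComplexConjugate ENNReal
open UpperHalfPlane MeasureTheory Filter Set

namespace Pool.Agent.VN

open Pool.Agent.RS Pool.Agent.VQ

noncomputable section

/-- **Row NI2** (final row I2N; short: copy of helper54/VQ/VI2.lean; from NTN; VQ: KPZ, PSC; RS.GMG). -/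
def NI2_stmt : Prop := I2N_stmt

/-- **Row NI4** (final row I4N; short: copy of helper39/VQ/VI4.lean; from NUM, NMA). Range: `dW p q ≤ C (m σ) + 1/2 = C m e3 log R + 1/2 ≤ C^(-3) log R + 1/2 ≤ log R` if the constant of `Adm` is at least `2` and at least the constants of NUM and NMA (`C z1 ≤ z2` etc. give `C⁴ m e3 ≤ 1`) and `R ≥ 3`. -/
def NI4_stmt : Prop := I4N_stmt

end

end Pool.Agent.VN
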